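import Pool.Agent.U978.FO.Core

/-!
# MP_f5f7dd_ag, Q1: a curve without separated multiples has only finitely many finite orbits

Let `K` be an algebraically closed field of characteristic zero and let `p` be an irreducible
polynomial in `K[x, y]` which depends on both variables. If the field `F(p)` of the separated
multiples of `p` consists only of the constants, then the curve `C` in `P¹ × P¹` has only finitely
many finite orbits.

Polynomials in `x` and `y` are written as elements of `K[X][Y]`: `C a` is the polynomial `a(x)`, and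
`b.map C` is the polynomial `b(y)`. `Bivariate.swap` exchanges the variables. Elements of `K(x)` and
of `K(y)` are written as elements of `RatFunc K`.

Proof. All but finitely many finite orbits consist of affine points at which both projections are
unramified, with full fibres. For such an orbit `S` let `a(x)` and `b(y)` be the monic polynomials
with the simple roots `x(S)` and `y(S)`. In the function field of the curve the quotient
`a(x) / b(y)` has the value `max(1, |x|) ^ deg a / max(1, |y|) ^ deg b` for every valuation which is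
trivial on `K`: it has no zeros and poles at affine points. As `deg a * deg_y p = |S| = deg b * deg_x p`,
for two such orbits the quotients have multiplicatively dependent valuations, so
`a^{deg a'} b'^{deg a} / (a'^{deg a} b^{deg a'})` is in all valuation rings over `K`, hence it is a
constant, and `a(x)^{deg a'} / a'(x)^{deg a} = k b(y)^{deg a'} / b'(y)^{deg a}` is a nonconstant
separated multiple. So there is at most one such orbit.
-/

set_option autoImplicit false

namespace Pool.Agent.Results.MP_f5f7dd_ag.FinitelyManyFiniteOrbits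

open Polynomial Polynomial.Bivariate

universe u

variable {K : Type u} [Field K]

/-- The rational function `f(x)` in `K(x, y)`. -/
noncomputable def inX (f : RatFunc K) : FractionRing K[X][Y] :=
  algebraMap K[X][Y] (FractionRing K[X][Y]) (C f.num) /
    algebraMap K[X][Y] (FractionRing K[X][Y]) (C f.denom)

/-- The rational function `g(y)` in `K(x, y)`. -/
noncomputable def inY (g : RatFunc K) : FractionRing K[X][Y] :=
  algebraMap K[X][Y] (FractionRing K[X][Y]) (g.num.map C) /
    algebraMap K[X][Y] (FractionRing K[X][Y]) (g.denom.map C)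

/-- `⟨p⟩`: the `q` in `K(x, y)` whose reduced numerator is a multiple of `p` and whose reduced
denominator is not divisible by `p`. -/
def multiples (p : K[X][Y]) : Set (FractionRing K[X][Y]) :=
  {q | p ∣ IsFractionRing.num K[X][Y] q ∧ ¬ p ∣ (IsFractionRing.den K[X][Y] q : K[X][Y])}

/-- `F(p)`: the pairs `(f, g)` in `K(x) × K(y)` with `f(x) - g(y)` in `⟨p⟩`. -/
def SepField (p : K[X][Y]) : Set (RatFunc K × RatFunc K) :=
  {fg | inX fg.1 - inY fg.2 ∈ multiples p}

/-- `F(p)` is trivial: it consists only of the constant pairs `(c, c)`. -/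
def SepTrivial (p : K[X][Y]) : Prop :=
  SepField p ⊆ Set.range fun c : K => (RatFunc.C c, RatFunc.C c)

/-- Homogeneous coordinates `(s₀, s₁)` of a point of `P¹(K) = K ∪ {∞}`, which is written as
`Option K`: `some a` has the coordinates `(1, a)`, and `none` is the point `∞` with the coordinates
`(0, 1)`. -/
def coords : Option K → K × K
  | none => (0, 1)
  | some a => (1, a)

/-- the degree of `p` in `x` -/
noncomputable def degX (p : K[X][Y]) : ℕ := (swap p).natDegree

/-- The value of the bihomogenization `x₀ ^ deg_x p * y₀ ^ deg_y p * p(x₁ / x₀, y₁ / y₀)` at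
`(x₀, x₁) = s`, `(y₀, y₁) = t`. -/
noncomputable def bihom (p : K[X][Y]) (s t : K × K) : K :=
  ∑ j ∈ Finset.range (p.natDegree + 1), ∑ i ∈ Finset.range (degX p + 1),
    (p.coeff j).coeff i * (s.1 ^ (degX p - i) * s.2 ^ i) * (t.1 ^ (p.natDegree - j) * t.2 ^ j)

/-- The curve `C` in `P¹(K) × P¹(K)`. -/
def curve (p : K[X][Y]) : Set (Option K × Option K) :=
  {P | bihom p (coords P.1) (coords P.2) = 0}

/-- `P` and `Q` are points of `C` with the same first coordinate or the same second coordinate. -/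
def Adj (p : K[X][Y]) (P Q : Option K × Option K) : Prop :=
  P ∈ curve p ∧ Q ∈ curve p ∧ (P.1 = Q.1 ∨ P.2 = Q.2)

/-- The orbit of the point `P`: its connected component. -/
def orbit (p : K[X][Y]) (P : Option K × Option K) : Set (Option K × Option K) :=
  {Q | Relation.ReflTransGen (Adj p) P Q}

/-- The set of the finite orbits on `C`. -/
def finiteOrbits (p : K[X][Y]) : Set (Set (Option K × Option K)) :=
  {O | O.Finite ∧ ∃ P ∈ curve p, O = orbit p P}

open Pool.Agent.U978.FO

lemma coeff_swap (p : K[X][Y]) (i j : ℕ) : ((swap p).coeff i).coeff j = (p.coeff j).coeff i := by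
  induction p using Polynomial.induction_on' with
  | add p q hp hq => rw [map_add, coeff_add, coeff_add, coeff_add, coeff_add, hp, hq]
  | monomial n a =>
    induction a using Polynomial.induction_on' with
    | add a b ha hb =>
      rw [map_add, map_add, coeff_add, coeff_add, coeff_add, coeff_add, ha, hb]
    | monomial m r =>
      rw [Bivariate.swap_monomial_monomial]
      simp only [coeff_monomial]
      split_ifs <;> simp_all [coeff_monomial]

lemma natDegree_coeff_le (p : K[X][Y]) (j : ℕ) : (p.coeff j).natDegree ≤ degX p := by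
  rw [natDegree_le_iff_coeff_eq_zero]
  intro i hi
  rw [← coeff_swap, coeff_eq_zero_of_natDegree_lt hi, coeff_zero]

lemma affine (p : K[X][Y]) (α β : K) :
    ((some α, some β) : Option K × Option K) ∈ curve p ↔ p.evalEval α β = 0 := by
  have hd : (fib p α).natDegree < p.natDegree + 1 := Nat.lt_succ_of_le natDegree_map_le
  have h : bihom p (coords (some α)) (coords (some β)) = p.evalEval α β := by
    rw [← fib_eval, eval_eq_sum_range' hd]
    unfold bihom coords
    refine Finset.sum_congr rfl fun j _ => ?_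
    rw [fib, coeff_map, coe_evalRingHom, eval_eq_sum_range' (n := degX p + 1)
      (Nat.lt_succ_of_le (natDegree_coeff_le p j)), Finset.sum_mul]
    refine Finset.sum_congr rfl fun i _ => ?_
    simp only [one_pow, one_mul]
  change bihom p (coords (some α)) (coords (some β)) = 0 ↔ _
  rw [h]

lemma adj_symm {p : K[X][Y]} {P Q : Option K × Option K} (h : Adj p P Q) : Adj p Q P :=
  ⟨h.2.1, h.1, h.2.2.imp Eq.symm Eq.symm⟩

lemma conn_symm {p : K[X][Y]} {P Q : Option K × Option K}
    (h : Relation.ReflTransGen (Adj p) P Q) : Relation.ReflTransGen (Adj p) Q P := by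
  induction h with
  | refl => exact Relation.ReflTransGen.refl
  | tail _ hbc ih => exact (Relation.ReflTransGen.single (adj_symm hbc)).trans ih

lemma orbit_eq {p : K[X][Y]} {P Q : Option K × Option K} (h : Q ∈ orbit p P) :
    orbit p Q = orbit p P := by
  have h' : Relation.ReflTransGen (Adj p) P Q := h
  ext R
  exact ⟨fun hR => h'.trans hR, fun hR =>
    (conn_symm h').trans hR⟩

lemma orbit_subset {p : K[X][Y]} {P Q : Option K × Option K} (hP : P ∈ curve p)
    (h : Q ∈ orbit p P) : Q ∈ curve p := by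
  have h' : Relation.ReflTransGen (Adj p) P Q := h
  induction h' with
  | refl => exact hP
  | tail _ hbc _ => exact hbc.2.1

lemma orbit_eq_of_adj {p : K[X][Y]} {P Q : Option K × Option K} (hP : P ∈ curve p)
    (hQ : Q ∈ curve p) (h : P.1 = Q.1 ∨ P.2 = Q.2) : orbit p Q = orbit p P :=
  orbit_eq (Relation.ReflTransGen.single ⟨hP, hQ, h⟩)

/-- the orbits with a point in finitely many fibres are finitely many -/
lemma finite_of_fst (p : K[X][Y]) (Z : Set (Option K)) (hZ : Z.Finite) :
    {O | ∃ P ∈ curve p, O = orbit p P ∧ P.1 ∈ Z}.Finite := by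
  refine Set.Finite.subset (hZ.image fun s => {Q | ∃ P ∈ curve p, P.1 = s ∧ Q ∈ orbit p P}) ?_
  rintro O ⟨P, hP, rfl, hPZ⟩
  refine ⟨P.1, hPZ, ?_⟩
  ext Q
  constructor
  · rintro ⟨P', hP', h1, h2⟩
    rwa [← orbit_eq_of_adj hP' hP (Or.inl h1)] at h2
  · intro h
    exact ⟨P, hP, rfl, h⟩

lemma finite_of_snd (p : K[X][Y]) (Z : Set (Option K)) (hZ : Z.Finite) :
    {O | ∃ P ∈ curve p, O = orbit p P ∧ P.2 ∈ Z}.Finite := by
  refine Set.Finite.subset (hZ.image fun s => {Q | ∃ P ∈ curve p, P.2 = s ∧ Q ∈ orbit p P}) ?_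
  rintro O ⟨P, hP, rfl, hPZ⟩
  refine ⟨P.2, hPZ, ?_⟩
  ext Q
  constructor
  · rintro ⟨P', hP', h1, h2⟩
    rwa [← orbit_eq_of_adj hP' hP (Or.inr h1)] at h2
  · intro h
    exact ⟨P, hP, rfl, h⟩

lemma ratFunc_cross {a a' : K[X]} (ha' : a' ≠ 0) (f : RatFunc K)
    (hf : f = algebraMap K[X] (RatFunc K) a / algebraMap K[X] (RatFunc K) a') :
    f.num * a' = a * f.denom := by
  have h1 : algebraMap K[X] (RatFunc K) a' ≠ 0 := by
    rw [ne_eq, map_eq_zero_iff _ (RatFunc.algebraMap_injective K)]
    exact ha'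
  have h2 : algebraMap K[X] (RatFunc K) f.denom ≠ 0 := by
    rw [ne_eq, map_eq_zero_iff _ (RatFunc.algebraMap_injective K)]
    exact f.denom_ne_zero
  have h3 := f.num_div_denom
  rw [hf, div_eq_div_iff (by rw [← hf]; exact h2) h1, ← map_mul, ← map_mul, ← hf] at h3
  exact RatFunc.algebraMap_injective K h3

/-- A separated multiple in the form of four polynomials. -/
lemma sep_of_dvd {p : K[X][Y]} (hp : Prime p) (hx : ∀ a : K[X], a ≠ 0 → ¬ p ∣ C a)
    (hy : ∀ b : K[X], b ≠ 0 → ¬ p ∣ b.map C) {a a' b b' : K[X]} (ha' : a' ≠ 0) (hb' : b' ≠ 0)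
    (h : p ∣ C a * b'.map C - C a' * b.map C) :
    (algebraMap K[X] (RatFunc K) a / algebraMap K[X] (RatFunc K) a',
      algebraMap K[X] (RatFunc K) b / algebraMap K[X] (RatFunc K) b') ∈ SepField p := by
  obtain ⟨f, hf⟩ : ∃ f, f = algebraMap K[X] (RatFunc K) a / algebraMap K[X] (RatFunc K) a' :=
    ⟨_, rfl⟩
  obtain ⟨g, hg⟩ : ∃ g, g = algebraMap K[X] (RatFunc K) b / algebraMap K[X] (RatFunc K) b' :=
    ⟨_, rfl⟩
  rw [← hf, ← hg]
  have hfc := ratFunc_cross ha' f hf
  have hgc := ratFunc_cross hb' g hg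
  let ι := algebraMap K[X][Y] (FractionRing K[X][Y])
  have hι : Function.Injective ι := IsFractionRing.injective _ _
  have nz : ∀ Q : K[X][Y], Q ≠ 0 → ι Q ≠ 0 := fun Q hQ h0 => hQ ((map_eq_zero_iff _ hι).1 h0)
  have hCa' : (C a' : K[X][Y]) ≠ 0 := C_ne_zero.2 ha'
  have hCb' : (b'.map C : K[X][Y]) ≠ 0 := (Polynomial.map_ne_zero_iff C_injective).2 hb'
  have e1 : inX f = ι (C a) / ι (C a') := by
    change ι (C f.num) / ι (C f.denom) = _
    rw [div_eq_div_iff (nz _ (C_ne_zero.2 f.denom_ne_zero)) (nz _ hCa'), ← map_mul ι,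
      ← map_mul ι, ← C_mul, ← C_mul, hfc]
  have e2 : inY g = ι (b.map C) / ι (b'.map C) := by
    change ι (g.num.map C) / ι (g.denom.map C) = _
    rw [div_eq_div_iff (nz _ ((Polynomial.map_ne_zero_iff C_injective).2 g.denom_ne_zero))
      (nz _ hCb'), ← map_mul ι, ← map_mul ι, ← Polynomial.map_mul, ← Polynomial.map_mul, hgc]
  obtain ⟨q, hq⟩ : ∃ q, q = inX f - inY g := ⟨_, rfl⟩
  have e3 : q * ι (C a' * b'.map C) = ι (C a * b'.map C - C a' * b.map C) := by
    rw [hq, e1, e2, map_mul ι, map_sub ι, map_mul ι, map_mul ι]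
    have h1 := nz _ hCa'
    have h2 := nz _ hCb'
    field_simp
  have hv : ¬ p ∣ C a' * b'.map C := fun hd => (hp.dvd_or_dvd hd).elim (hx a' ha') (hy b' hb')
  have hden : ι (IsFractionRing.den K[X][Y] q : K[X][Y]) ≠ 0 :=
    nz _ (nonZeroDivisors.coe_ne_zero _)
  have e4 : q * ι (IsFractionRing.den K[X][Y] q : K[X][Y]) = ι (IsFractionRing.num K[X][Y] q) := by
    rw [← div_eq_iff_mul_eq hden |>.1 (IsFractionRing.mk'_num_den' K[X][Y] q)]
  have e5 : IsFractionRing.num K[X][Y] q * (C a' * b'.map C) =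
      (C a * b'.map C - C a' * b.map C) * (IsFractionRing.den K[X][Y] q : K[X][Y]) := by
    apply hι
    rw [map_mul ι (IsFractionRing.num K[X][Y] q), map_mul ι (C a * b'.map C - C a' * b.map C),
      ← e3, ← e4]
    ring
  have hnum : p ∣ IsFractionRing.num K[X][Y] q := by
    have h1 : p ∣ IsFractionRing.num K[X][Y] q * (C a' * b'.map C) := by
      rw [e5]; exact h.mul_right _
    exact (hp.dvd_or_dvd h1).resolve_right hv
  change inX f - inY g ∈ multiples p
  rw [← hq]
  refine ⟨hnum, fun hd => hp.not_isUnit ?_⟩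
  exact IsFractionRing.num_den_reduced K[X][Y] q hnum hd

/-- **MP_f5f7dd_ag, Q1.** Let `K` be an algebraically closed field of characteristic `0` and let `p` be
an irreducible polynomial in `K[x, y]` which is not in `K[x] ∪ K[y]`. If `F(p)` is trivial, then `C`
has only finitely many finite orbits. -/
theorem result [IsAlgClosed K] [CharZero K] (p : K[X][Y]) (hp : Irreducible p)
    (hx : ∀ a : K[X], p ≠ C a) (hy : ∀ b : K[X], p ≠ b.map C) (hF : SepTrivial p) :
    (finiteOrbits p).Finite := by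
  classical
  have hn : p.natDegree ≠ 0 := fun h => hx _ (eq_C_of_natDegree_eq_zero h)
  have hm : (swap p).natDegree ≠ 0 := fun h => by
    apply hy ((swap p).coeff 0)
    rw [← Bivariate.swap_C, ← eq_C_of_natDegree_eq_zero h, Bivariate.swap_swap_apply]
  have hpp : Prime p := hp.prime
  have hx' : ∀ a : K[X], a ≠ 0 → ¬ p ∣ C a := fun a ha hd => by
    have := natDegree_le_of_dvd hd (C_ne_zero.2 ha)
    rw [natDegree_C] at this
    omega
  have hy' : ∀ b : K[X], b ≠ 0 → ¬ p ∣ b.map C := fun b hb hd => by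
    obtain ⟨r, hr⟩ := hd
    have h1 : swap p ∣ C b := ⟨swap r, by rw [← Bivariate.swap_map_C, hr, map_mul]⟩
    have h2 := natDegree_le_of_dvd h1 (C_ne_zero.2 hb)
    rw [natDegree_C] at h2
    omega
  have hirr : Irreducible (swap p) :=
    (MulEquiv.irreducible_iff (swap (R := K)) (x := p)).2 hp
  have hZ1 := bad_finite p hp hn
  have hZ2 := bad_finite (swap p) hirr hm
  obtain ⟨Z1, hZ1e⟩ : ∃ Z, Z = {α : K | ¬ ((fib p α).natDegree = p.natDegree ∧
    (fib p α).Separable)} := ⟨_, rfl⟩
  obtain ⟨Z2, hZ2e⟩ : ∃ Z, Z = {β : K | ¬ ((fib (swap p) β).natDegree = (swap p).natDegree ∧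
    (fib (swap p) β).Separable)} := ⟨_, rfl⟩
  rw [← hZ1e] at hZ1
  rw [← hZ2e] at hZ2
  -- the good orbits
  let good : Set (Set (Option K × Option K)) :=
    {O | O.Finite ∧ (∃ P ∈ curve p, O = orbit p P) ∧
      ∀ Q ∈ O, Q.1 ∉ insert none (some '' Z1) ∧ Q.2 ∉ insert none (some '' Z2)}
  have hgood : good.Subsingleton := by
    rintro O ⟨hOf, ⟨P, hP, hOP⟩, hO⟩ O' ⟨hOf', ⟨P', hP', hOP'⟩, hO'⟩
    by_contra hne
    -- data of an orbit
    have data : ∀ (O : Set (Option K × Option K)) (hOf : O.Finite) (P : Option K × Option K),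
        P ∈ curve p → O = orbit p P → (∀ Q ∈ O, Q.1 ∉ insert none (some '' Z1) ∧
          Q.2 ∉ insert none (some '' Z2)) → ∃ A B : Finset K, Full p A B ∧
          Full (swap p) B A ∧ A.Nonempty ∧ ∀ α ∈ A, ∃ Q ∈ O, Q.1 = some α := by
      intro O hOf P hP hOP hO
      let A : Finset K := (hOf.toFinset.image Prod.fst).eraseNone
      let B : Finset K := (hOf.toFinset.image Prod.snd).eraseNone
      have memA : ∀ α, α ∈ A ↔ ∃ Q ∈ O, Q.1 = some α := by
        intro α
        simp only [A, Finset.mem_eraseNone, Finset.mem_image, Set.Finite.mem_toFinset]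
      have memB : ∀ β, β ∈ B ↔ ∃ Q ∈ O, Q.2 = some β := by
        intro β
        simp only [B, Finset.mem_eraseNone, Finset.mem_image, Set.Finite.mem_toFinset]
      have closed : ∀ Q ∈ O, ∀ R ∈ curve p, (Q.1 = R.1 ∨ Q.2 = R.2) → R ∈ O := by
        intro Q hQ R hR h
        rw [hOP] at hQ ⊢
        have hQc := orbit_subset hP hQ
        have hQ' : Relation.ReflTransGen (Adj p) P Q := hQ
        exact hQ'.tail ⟨hQc, hR, h⟩
      refine ⟨A, B, ?_, ?_, ?_, fun α hα => (memA α).1 hα⟩
      · intro α hα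
        obtain ⟨Q, hQ, hQ1⟩ := (memA α).1 hα
        have h1 := (hO Q hQ).1
        have h2 : α ∉ Z1 := fun hZ => h1 (Set.mem_insert_of_mem _ ⟨α, hZ, hQ1.symm⟩)
        rw [hZ1e, Set.mem_ofPred_eq, not_not] at h2
        refine ⟨h2.1, h2.2, fun β hβ => ?_⟩
        rw [IsRoot.def, fib_eval, ← affine] at hβ
        exact (memB β).2 ⟨_, closed Q hQ _ hβ (Or.inl hQ1), rfl⟩
      · intro β hβ
        obtain ⟨Q, hQ, hQ2⟩ := (memB β).1 hβ
        have h1 := (hO Q hQ).2
        have h2 : β ∉ Z2 := fun hZ => h1 (Set.mem_insert_of_mem _ ⟨β, hZ, hQ2.symm⟩)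
        rw [hZ2e, Set.mem_ofPred_eq, not_not] at h2
        refine ⟨h2.1, h2.2, fun α hα => ?_⟩
        rw [IsRoot.def, fib_eval, evalEval_swap, ← affine] at hα
        exact (memA α).2 ⟨_, closed Q hQ _ hα (Or.inr hQ2), rfl⟩
      · have hPO : P ∈ O := by rw [hOP]; exact Relation.ReflTransGen.refl
        have h1 := (hO P hPO).1
        rcases hP1 : P.1 with _ | α
        · exact absurd (by rw [hP1]; exact Set.mem_insert _ _) h1
        · exact ⟨α, (memA α).2 ⟨P, hPO, hP1⟩⟩
    obtain ⟨A, B, hA, hB, hAne, hAm⟩ := data O hOf P hP hOP hO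
    obtain ⟨A', B', hA', hB', hAne', hAm'⟩ := data O' hOf' P' hP' hOP' hO'
    have hdisj : ∀ α ∈ A, α ∉ A' := by
      intro α hα hα'
      obtain ⟨Q, hQ, hQ1⟩ := hAm α hα
      obtain ⟨Q', hQ', hQ1'⟩ := hAm' α hα'
      apply hne
      rw [hOP] at hQ ⊢
      rw [hOP'] at hQ' ⊢
      rw [← orbit_eq hQ, ← orbit_eq hQ']
      exact orbit_eq_of_adj (orbit_subset hP' hQ') (orbit_subset hP hQ)
        (Or.inl (by rw [hQ1, hQ1']))
    obtain ⟨k, hk⟩ := two_orbits p hpp hx' hy' (Nat.pos_of_ne_zero hm) hA hB hA' hB'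
    have hS := hF (sep_of_dvd hpp hx' hy' (pow_ne_zero _ (rp_ne A')) (pow_ne_zero _ (rp_ne B')) hk)
    obtain ⟨c, hc⟩ := hS
    have hc1 : RatFunc.C c = algebraMap K[X] (RatFunc K) (rp A ^ A'.card) /
        algebraMap K[X] (RatFunc K) (rp A' ^ A.card) := congrArg Prod.fst hc
    have h1 : algebraMap K[X] (RatFunc K) (rp A' ^ A.card) ≠ 0 := by
      rw [ne_eq, map_eq_zero_iff _ (RatFunc.algebraMap_injective K)]
      exact pow_ne_zero _ (rp_ne A')
    rw [eq_div_iff h1, ← RatFunc.algebraMap_C, ← map_mul] at hc1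
    have h2 := RatFunc.algebraMap_injective K hc1
    obtain ⟨α, hα⟩ := hAne
    have h3 := congrArg (Polynomial.eval α) h2
    rw [eval_mul, eval_C, eval_pow, eval_pow, rp_eval.2 hα,
      zero_pow (Finset.card_pos.2 hAne').ne', mul_eq_zero] at h3
    rcases h3 with h3 | h3
    · rw [h3, C_0, zero_mul] at h2
      exact pow_ne_zero _ (rp_ne A) h2.symm
    · exact hdisj α hα (rp_eval.1 ((pow_eq_zero_iff (Finset.card_pos.2 ⟨α, hα⟩).ne').1 h3))
  have hf1 := finite_of_fst p (insert none (some '' Z1)) ((hZ1.image _).insert _)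
  have hf2 := finite_of_snd p (insert none (some '' Z2)) ((hZ2.image _).insert _)
  refine ((hgood.finite.union hf1).union hf2).subset ?_
  rintro O ⟨hOf, P, hP, hOP⟩
  by_cases hO : ∀ Q ∈ O, Q.1 ∉ insert none (some '' Z1) ∧ Q.2 ∉ insert none (some '' Z2)
  · exact Or.inl (Or.inl ⟨hOf, ⟨P, hP, hOP⟩, hO⟩)
  · push Not at hO
    obtain ⟨Q, hQ, h⟩ := hO
    have hQ' : Q ∈ orbit p P := hOP ▸ hQ
    have hQc := orbit_subset hP hQ'
    have hOQ : O = orbit p Q := by rw [hOP, orbit_eq hQ']
    by_cases h1 : Q.1 ∈ insert none (some '' Z1)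
    · exact Or.inl (Or.inr ⟨Q, hQc, hOQ, h1⟩)
    · exact Or.inr ⟨Q, hQc, hOQ, h h1⟩

end Pool.Agent.Results.MP_f5f7dd_ag.FinitelyManyFiniteOrbits
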